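import Mathlib

/-!
# MP_63c1c3_gt, Q1: compact subspaces of `S_cro(X × Y)` are metrizable
-/

set_option autoImplicit false

open Set Topology TopologicalSpace Filter

universe u v

namespace Pool.Agent.Results.MP_63c1c3_gt.CrossOpenCompacta

variable (X : Type u) (Y : Type v) [TopologicalSpace X] [TopologicalSpace Y]

/-- the set `S(X × Y)` of all separately continuous real functions -/
def Sep : Type (max u v) :=
  {s : X × Y → ℝ // (∀ x, Continuous fun y => s (x, y)) ∧ ∀ y, Continuous fun x => s (x, y)}

variable {X Y} in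
/-- the cross of the point `c` -/
def cross (c : X × Y) : Set (X × Y) := {p | p.2 = c.2 ∨ p.1 = c.1}

/-- the cross-open topology: generated by the sets `{s | s(A) ⊆ W}` where `W ⊆ ℝ` is open and
`A = closure G ∩ C` for a relatively open subset `G = O ∩ C` (`O` open in `X × Y`) of a cross `C` -/
def cro : TopologicalSpace (Sep X Y) :=
  generateFrom {T | ∃ (c : X × Y) (O : Set (X × Y)) (W : Set ℝ), IsOpen O ∧ IsOpen W ∧
    T = {s : Sep X Y | ∀ p ∈ closure (O ∩ cross c) ∩ cross c, s.1 p ∈ W}}

section general

/-- a compact subspace of a space with a countable separating family of continuous real functions is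
metrizable -/
theorem metrizable_of_separating {S : Type u} [TopologicalSpace S] {ι : Type} [Countable ι] (e : ι → S → ℝ)
    (he : ∀ i, Continuous (e i)) (hsep : ∀ s t, (∀ i, e i s = e i t) → s = t) {K : Set S}
    (hK : IsCompact K) : MetrizableSpace K := by
  have hK' : CompactSpace K := isCompact_iff_compactSpace.mp hK
  have hc : Continuous (fun (k : K) (i : ι) => e i k.1) :=
    continuous_pi fun i => (he i).comp continuous_subtype_val
  have hinj : Function.Injective (fun (k : K) (i : ι) => e i k.1) := by
    intro a b hab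
    exact Subtype.ext (hsep _ _ fun i => congrFun hab i)
  exact (hc.isClosedEmbedding hinj).isEmbedding.metrizableSpace

end general

variable {X Y}

theorem continuousOn_cross [T1Space X] [T1Space Y] (s : Sep X Y) (c : X × Y) : ContinuousOn s.1 (cross c) := by
  have h1 : IsClosed {p : X × Y | p.2 = c.2} := isClosed_singleton.preimage continuous_snd
  have h2 : IsClosed {p : X × Y | p.1 = c.1} := isClosed_singleton.preimage continuous_fst
  have e : cross c = {p : X × Y | p.2 = c.2} ∪ {p : X × Y | p.1 = c.1} := rfl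
  rw [e]
  refine ContinuousOn.union_of_isClosed ?_ ?_ h1 h2
  · have h3 : Continuous fun p : X × Y => s.1 (p.1, c.2) := (s.2.2 c.2).comp continuous_fst
    refine h3.continuousOn.congr fun p hp => ?_
    have hp' : p.2 = c.2 := hp
    rw [← hp']
  · have h3 : Continuous fun p : X × Y => s.1 (c.1, p.2) := (s.2.1 c.1).comp continuous_snd
    refine h3.continuousOn.congr fun p hp => ?_
    have hp' : p.1 = c.1 := hp
    rw [← hp']

/-- point evaluations are continuous in the cross-open topology -/
theorem continuous_eval [T1Space X] [T1Space Y] (p : X × Y) :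
    @Continuous (Sep X Y) ℝ (cro X Y) _ (fun s => s.1 p) := by
  letI : TopologicalSpace (Sep X Y) := cro X Y
  rw [continuous_def]
  intro W hW
  rw [isOpen_iff_forall_mem_open]
  intro s hs
  have hs' : s.1 p ∈ W := hs
  obtain ⟨V, hV, hVW⟩ := exists_mem_nhds_isClosed_subset (hW.mem_nhds hs')
  obtain ⟨O, hO, hOV⟩ := (continuousOn_iff'.mp (continuousOn_cross s p)) (interior V) isOpen_interior
  have hpc : p ∈ cross p := Or.inl rfl
  have hpV : s.1 p ∈ interior V := mem_interior_iff_mem_nhds.mpr hV
  have hpO : p ∈ O := by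
    have : p ∈ s.1 ⁻¹' interior V ∩ cross p := ⟨hpV, hpc⟩
    rw [hOV] at this
    exact this.1
  refine ⟨{t : Sep X Y | ∀ q ∈ closure (O ∩ cross p) ∩ cross p, t.1 q ∈ W}, ?_, ?_, ?_⟩
  · intro t ht
    exact ht p ⟨subset_closure ⟨hpO, hpc⟩, hpc⟩
  · exact isOpen_generateFrom_of_mem ⟨p, O, W, hO, hW, rfl⟩
  · rintro q ⟨hq1, hq2⟩
    refine hVW.2 ?_
    have hcl : ∀ r ∈ O ∩ cross p, s.1 r ∈ V := by
      intro r hr
      have : r ∈ s.1 ⁻¹' interior V ∩ cross p := by rw [hOV]; exact hr
      exact interior_subset this.1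
    have hcw : ContinuousWithinAt s.1 (O ∩ cross p) q :=
      (continuousOn_cross s p q hq2).mono inter_subset_right
    have := hcw.mem_closure hq1 hcl
    rwa [hVW.1.closure_eq] at this

/-- A separately continuous function is determined by its values on the product of dense sets. -/
theorem sep_ext {A : Set X} {B : Set Y} (hA : Dense A) (hB : Dense B) (s t : Sep X Y)
    (h : ∀ a ∈ A, ∀ b ∈ B, s.1 (a, b) = t.1 (a, b)) : s = t := by
  apply Subtype.ext
  funext ⟨x, y⟩
  have h1 : ∀ a ∈ A, ∀ y, s.1 (a, y) = t.1 (a, y) := by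
    intro a ha y
    have := Continuous.ext_on hB (s.2.1 a) (t.2.1 a) (fun b hb => h a ha b hb)
    exact congrFun this y
  have := Continuous.ext_on hA (s.2.2 y) (t.2.2 y) (fun a ha => h1 a ha y)
  exact congrFun this x

/-- **Every compact subspace of `S_cro(X × Y)` is metrizable, for all separable `T₁` spaces `X`, `Y`
(in particular for all Polish spaces).** -/
theorem result (X : Type u) (Y : Type v) [TopologicalSpace X] [TopologicalSpace Y] [T1Space X] [T1Space Y]
    [SeparableSpace X] [SeparableSpace Y] (K : Set (Sep X Y)) (hK : @IsCompact _ (cro X Y) K) :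
    @MetrizableSpace K (@instTopologicalSpaceSubtype _ _ (cro X Y)) := by
  letI : TopologicalSpace (Sep X Y) := cro X Y
  obtain ⟨A, hAc, hA⟩ := exists_countable_dense X
  obtain ⟨B, hBc, hB⟩ := exists_countable_dense Y
  have hAc' : Countable A := hAc.to_subtype
  have hBc' : Countable B := hBc.to_subtype
  obtain ⟨ι, hι, ⟨g⟩⟩ : ∃ (ι : Type) (_ : Countable ι), Nonempty (A × B ≃ ι) := by
    obtain ⟨f, hf⟩ := exists_injective_nat (A × B)
    exact ⟨range f, inferInstance, ⟨Equiv.ofInjective f hf⟩⟩
  refine metrizable_of_separating (fun (i : ι) (s : Sep X Y) => s.1 ((g.symm i).1.1, (g.symm i).2.1))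
    (fun i => continuous_eval _) (fun s t hst => sep_ext hA hB s t fun a ha b hb => ?_) hK
  have := hst (g (⟨a, ha⟩, ⟨b, hb⟩))
  simpa using this

end Pool.Agent.Results.MP_63c1c3_gt.CrossOpenCompacta
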