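import Mathlib

/-!
# MP_63c1c3_gt, Q2: compact subspaces of `S_cru(X × Y)` are metrizable
-/

set_option autoImplicit false

open Set Topology TopologicalSpace Filter

universe u v

namespace Pool.Agent.Results.MP_63c1c3_gt.CrossUniformCompacta

variable (X : Type u) (Y : Type v) [TopologicalSpace X] [TopologicalSpace Y]

/-- the set `S(X × Y)` of all separately continuous real functions -/
def Sep : Type (max u v) :=
  {s : X × Y → ℝ // (∀ x, Continuous fun y => s (x, y)) ∧ ∀ y, Continuous fun x => s (x, y)}

variable {X Y} in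
/-- the cross of the point `c` -/
def cross (c : X × Y) : Set (X × Y) := {p | p.2 = c.2 ∨ p.1 = c.1}

/-- the extended pseudometric `d_c(s,t) = sup {|s(p) - t(p)| : p ∈ cr{c}}` -/
noncomputable def dc (c : X × Y) (s t : Sep X Y) : ENNReal := ⨆ p ∈ cross c, edist (s.1 p) (t.1 p)

/-- the cross-uniform topology: generated by the extended pseudometrics `d_c`, i.e. by all balls
`{t | d_c(s,t) < ε}`, `ε > 0` -/
def cru : TopologicalSpace (Sep X Y) :=
  generateFrom {T | ∃ (c : X × Y) (s : Sep X Y) (ε : ENNReal), 0 < ε ∧ T = {t : Sep X Y | dc X Y c s t < ε}}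

section general

/-- a compact subspace of a space with a countable separating family of continuous real functions is
metrizable -/
theorem metrizable_of_separating {S : Type u} [TopologicalSpace S] {ι : Type} [Countable ι] (e : ι → S → ℝ)
    (he : ∀ i, Continuous (e i)) (hsep : ∀ s t, (∀ i, e i s = e i t) → s = t) {K : Set S}
    (hK : IsCompact K) : MetrizableSpace K := by
  have hK' : CompactSpace K := isCompact_iff_compactSpace.mp hK
  have hc : Continuous (fun (k : K) (i : ι) => e i k.1) :=
    continuous_pi fun i => (he i).comp continuous_subtype_val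
  have hinj : Function.Injective (fun (k : K) (i : ι) => e i k.1) := by
    intro a b hab
    exact Subtype.ext (hsep _ _ fun i => congrFun hab i)
  exact (hc.isClosedEmbedding hinj).isEmbedding.metrizableSpace

end general

variable {X Y}

/-- point evaluations are continuous in the cross-uniform topology -/
theorem continuous_eval (p : X × Y) :
    @Continuous (Sep X Y) ℝ (cru X Y) _ (fun s => s.1 p) := by
  letI : TopologicalSpace (Sep X Y) := cru X Y
  rw [continuous_def]
  intro W hW
  rw [isOpen_iff_forall_mem_open]
  intro s hs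
  have hs' : s.1 p ∈ W := hs
  obtain ⟨ε, hε, hball⟩ := EMetric.isOpen_iff.mp hW _ hs'
  have hpc : p ∈ cross p := Or.inl rfl
  refine ⟨{t : Sep X Y | dc X Y p s t < ε}, ?_, ?_, ?_⟩
  · intro t ht
    refine hball ?_
    have h1 : edist (s.1 p) (t.1 p) ≤ dc X Y p s t := by
      unfold dc
      exact le_iSup₂ (f := fun q (_ : q ∈ cross p) => edist (s.1 q) (t.1 q)) p hpc
    change edist (t.1 p) (s.1 p) < ε
    rw [edist_comm]
    exact lt_of_le_of_lt h1 ht
  · exact isOpen_generateFrom_of_mem ⟨p, s, ε, hε, rfl⟩
  · change dc X Y p s s < ε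
    simpa [dc] using hε

/-- A separately continuous function is determined by its values on the product of dense sets. -/
theorem sep_ext {A : Set X} {B : Set Y} (hA : Dense A) (hB : Dense B) (s t : Sep X Y)
    (h : ∀ a ∈ A, ∀ b ∈ B, s.1 (a, b) = t.1 (a, b)) : s = t := by
  apply Subtype.ext
  funext ⟨x, y⟩
  have h1 : ∀ a ∈ A, ∀ y, s.1 (a, y) = t.1 (a, y) := by
    intro a ha y
    have := Continuous.ext_on hB (s.2.1 a) (t.2.1 a) (fun b hb => h a ha b hb)
    exact congrFun this y
  have := Continuous.ext_on hA (s.2.2 y) (t.2.2 y) (fun a ha => h1 a ha y)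
  exact congrFun this x

/-- **Every compact subspace of `S_cru(X × Y)` is metrizable, for all separable spaces `X`, `Y`
(in particular for all Polish spaces).** -/
theorem result (X : Type u) (Y : Type v) [TopologicalSpace X] [TopologicalSpace Y]
    [SeparableSpace X] [SeparableSpace Y] (K : Set (Sep X Y)) (hK : @IsCompact _ (cru X Y) K) :
    @MetrizableSpace K (@instTopologicalSpaceSubtype _ _ (cru X Y)) := by
  letI : TopologicalSpace (Sep X Y) := cru X Y
  obtain ⟨A, hAc, hA⟩ := exists_countable_dense X
  obtain ⟨B, hBc, hB⟩ := exists_countable_dense Y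
  have hAc' : Countable A := hAc.to_subtype
  have hBc' : Countable B := hBc.to_subtype
  obtain ⟨ι, hι, ⟨g⟩⟩ : ∃ (ι : Type) (_ : Countable ι), Nonempty (A × B ≃ ι) := by
    obtain ⟨f, hf⟩ := exists_injective_nat (A × B)
    exact ⟨range f, inferInstance, ⟨Equiv.ofInjective f hf⟩⟩
  refine metrizable_of_separating (fun (i : ι) (s : Sep X Y) => s.1 ((g.symm i).1.1, (g.symm i).2.1))
    (fun i => continuous_eval _) (fun s t hst => sep_ext hA hB s t fun a ha b hb => ?_) hK
  have := hst (g (⟨a, ha⟩, ⟨b, hb⟩))
  simpa using this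

end Pool.Agent.Results.MP_63c1c3_gt.CrossUniformCompacta
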